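import Pool.Agent.Helper1.FG.Main

/-!
# Points of arbitrary multiplicity placed on the line (MP_6ec8e4_ag)

Phase 0 on top of helper1's theorem `high`: items on the line with arbitrary multiplicities, the others
(off the line) of multiplicity `≤ M`.  If the on-items of multiplicity `> M` satisfy `∑ m + 8 M ^ 2 + 1 ≤ n` then exact
Horace steps keep this inequality until all items have multiplicity `≤ M`; one more step gives a state in which `high`
applies.
-/

set_option autoImplicit false

namespace Pool.Agent.Helper28.HP

open Pool.Agent.Helper1.FH

/-- multiplicity of an on-item of multiplicity `> M` -/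
def big (M : ℕ) : Item → ℕ
  | .on m _ => if M < m then m else 0
  | .off _ => 0

lemma big_shift (M : ℕ) (x : Item) : big M x.shift ≤ big M x := by
  cases x with
  | on m g =>
    simp only [Item.shift, big]
    split_ifs <;> omega
  | off m => exact le_rfl

lemma big_shift_lt (M : ℕ) {x : Item} (h : 0 < big M x) : big M x.shift + 1 ≤ big M x := by
  cases x with
  | on m g =>
    simp only [Item.shift, big] at *
    split_ifs at * <;> omega
  | off m => simp [big] at h

lemma tr_le_big (M : ℕ) (x : Item) : x.tr ≤ M * x.act + big M x := by
  cases x with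
  | on m g =>
    by_cases h : M < m
    · simp only [big, if_pos h, Item.tr]
      split_ifs <;> omega
    · simp only [big, if_neg h, Item.act, add_zero]
      by_cases h1 : 0 < (Item.on m g).tr
      · rw [if_pos h1, mul_one]
        simp only [Item.tr]
        split_ifs <;> omega
      · omega
  | off m => simp [Item.tr]

lemma big_le_tot {ι : Type*} [Fintype ι] (M : ℕ) (x : ι → Item) (k : ι) : big M (x k) ≤ tot (big M) x :=
  Finset.single_le_sum (f := fun k => big M (x k)) (fun _ _ => Nat.zero_le _) (Finset.mem_univ k)

section

variable {ι : Type*} [Fintype ι]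

lemma tot_tr_le_big (M : ℕ) (x : ι → Item) :
    tot Item.tr x ≤ M * tot Item.act x + tot (big M) x := by
  unfold tot
  rw [Finset.mul_sum, ← Finset.sum_add_distrib]
  exact Finset.sum_le_sum (fun k _ => tr_le_big M (x k))

lemma tot_big_sh (M : ℕ) (x : ι → Item) : tot (big M) (sh x) ≤ tot (big M) x :=
  Finset.sum_le_sum (fun k _ => big_shift M (x k))

lemma tot_big_sh_lt (M : ℕ) {x : ι → Item} (h : 0 < tot (big M) x) :
    tot (big M) (sh x) + 1 ≤ tot (big M) x := by
  obtain ⟨k, hk⟩ := exists_pos h
  have h1 : tot (big M) (sh x) < tot (big M) x :=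
    Finset.sum_lt_sum (fun k _ => big_shift M (x k)) ⟨k, Finset.mem_univ k, big_shift_lt M hk⟩
  omega

lemma ok_of_big {M N : ℕ} {x : ι → Item} (h : Ok N x) (ho : ∀ k m, x k = .off m → m ≤ M)
    (hb : tot (big M) x = 0) : Ok M x := by
  intro k
  have h1 := h k
  have h2 := big_le_tot M x k
  have h3 := ho k
  cases hk : x k with
  | on m g =>
    rw [hk] at h1 h2
    simp only [Item.ok, big] at *
    split_ifs at h2 <;> omega
  | off m => exact h3 m hk

end

variable {ι : Type*} [Fintype ι] [DecidableEq ι]

lemma pot8 {M n : ℕ} (hM : 2 ≤ M) (hn : 8 * M ^ 2 ≤ n) {x : ι → Item} (hsz : T n ≤ tot Item.sz x) :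
    8 * M ^ 2 * Pool.Agent.Helper1.FI.hb M + M ^ 3 + 2 * M ^ 2 + 3 * (2 * M ^ 2) * n + 2 * (2 * M ^ 2) * T n
      ≤ (2 * M ^ 2) * W x + n ^ 2 := by
  have h1 : 2 * T n ≤ W x := by
    unfold W
    omega
  have h2 : 2 * M ^ 2 * (2 * T n) ≤ 2 * M ^ 2 * W x := Nat.mul_le_mul le_rfl h1
  have h3 : 2 * M ^ 2 * (2 * T n) = 2 * (2 * M ^ 2) * T n := by ring
  obtain ⟨t, rfl⟩ : ∃ t, n = 8 * M ^ 2 + t := ⟨n - 8 * M ^ 2, by omega⟩
  obtain ⟨a, rfl⟩ : ∃ a, M = a + 2 := ⟨M - 2, by omega⟩
  have h4 : 8 * (a + 2) ^ 2 * Pool.Agent.Helper1.FI.hb (a + 2) + (a + 2) ^ 3 + 2 * (a + 2) ^ 2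
      + 3 * (2 * (a + 2) ^ 2) * (8 * (a + 2) ^ 2 + t) ≤ (8 * (a + 2) ^ 2 + t) ^ 2 := by
    have e1 : Pool.Agent.Helper1.FI.hb (a + 2) = (a + 1) * (2 * a + 3) := by
      unfold Pool.Agent.Helper1.FI.hb
      congr 1
    rw [e1]
    have e2 : (8 * (a + 2) ^ 2 + t) ^ 2
        = 8 * (a + 2) ^ 2 * ((a + 1) * (2 * a + 3)) + (a + 2) ^ 3 + 2 * (a + 2) ^ 2
          + 3 * (2 * (a + 2) ^ 2) * (8 * (a + 2) ^ 2 + t)
          + (23 * a ^ 3 + 128 * a ^ 2 + 236 * a + 144 + 10 * (a + 2) ^ 2 * t + t ^ 2) := by ring
    rw [e2]
    exact Nat.le_add_right _ _
  omega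

theorem phase0 {M N : ℕ} (hM : 2 ≤ M) : ∀ n q : ℕ, ∀ x : ι → Item, Ok N x →
    (∀ k m, x k = .off m → m ≤ M) → tot Item.fat x = q → tot (big M) x + 8 * M ^ 2 + 1 ≤ n →
    tot Item.tr x ≤ n → T n ≤ tot Item.sz x → Inj n x := by
  intro n
  induction n with
  | zero => exact fun q x _ _ _ _ _ _ => inj_zero x
  | succ n ih =>
    intro q
    induction q with
    | zero =>
      intro x hx ho hq hb htr hsz
      have hMn : M ≤ n + 1 := by nlinarith
      refine finishing (n + 1) _ x (fun k => ?_) hq rfl htr hsz
      have h1 := hx k
      have h2 := big_le_tot M x k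
      have h3 := ho k
      cases hk : x k with
      | on m g =>
        rw [hk] at h1 h2
        simp only [Item.ok, big] at *
        split_ifs at h2 <;> omega
      | off m =>
        have h4 := h3 m hk
        simp only [Item.ok]
        omega
    | succ q ihq =>
      intro x hx ho hq hb htr hsz
      obtain ⟨k, hk0⟩ := exists_pos (f := Item.fat) (x := x) (by omega)
      obtain ⟨m, hm, hk⟩ := off_of_fat hk0
      have hmM : m ≤ M := ho k m hk
      have hmN : m ≤ N := by
        have := hx k
        rw [hk] at this
        exact this
      have hbk : ∀ (z : ι → Item) (g : ℕ), big M (z k) = 0 →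
          tot (big M) (Function.update z k (.on m g)) = tot (big M) z := by
        intro z g hz
        have h := tot_update (big M) z k (.on m g)
        have h1 : big M (.on m g) = 0 := by simp [big, not_lt.2 hmM]
        omega
      by_cases hfit : tot Item.tr x + m ≤ n + 1
      · apply insert_on hk
        apply ihq
        · exact hx.update (by simp only [Item.ok]; omega)
        · intro l m' hl
          by_cases hlk : l = k
          · subst hlk
            rw [Function.update_self] at hl
            exact absurd hl (by simp)
          · rw [Function.update_of_ne hlk] at hl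
            exact ho l m' hl
        · have := fat_ins hk hm
          omega
        · rw [hbk x 0 (by rw [hk]; rfl)]
          exact hb
        · rw [tr_ins hk]
          exact hfit
        · rw [sz_ins hk]
          exact hsz
      · have hT := T_succ n
        have htrle := tot_tr_le_big M x
        have htrsh := tot_tr_sh x
        have hszsh := tot_sz_sh hx
        have hbsh := tot_big_sh M x
        have hactsh := tot_act_sh x
        have hM2 : M ^ 2 = M * M := sq M
        have hact : M < tot Item.act x := by
          by_contra h12
          have h13 : M * tot Item.act x ≤ M * M := Nat.mul_le_mul le_rfl (by omega)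
          nlinarith
        -- the final argument for a state after a step
        have hfin : ∀ y : ι → Item, Ok N y → (∀ k m, y k = .off m → m ≤ M) → tot Item.tr y ≤ n →
            T n ≤ tot Item.sz y → tot (big M) y ≤ tot (big M) (sh x) →
            tot Item.act y + tot Item.tr y ≤ n + M + 2 → tot Item.tr y ≤ tot Item.tr (sh x) + M →
            Inj n y := by
          intro y hy hyo hytr hysz hyb hyact hytr2
          by_cases hx0 : tot (big M) x = 0
          · have hn8 : 8 * M ^ 2 ≤ n := by omega
            have h5 : 5 * M ^ 2 ≤ n := by
              have : 5 * M ^ 2 ≤ 8 * M ^ 2 := Nat.mul_le_mul (by norm_num) le_rfl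
              omega
            apply Pool.Agent.Helper1.FI.high hM (h := Pool.Agent.Helper1.FI.hb M)
              (fun n x h1 _ h2 h3 h4 => Pool.Agent.Helper1.FI.TI n x h1 h2 h3 h4)
              (fun n x h1 h2 h3 => Pool.Agent.Helper1.FI.TII (by omega) n x h1 h2 h3) n h5
            refine ⟨ok_of_big hy hyo (by omega), hytr, hysz, hyact, ?_, pot8 hM hn8 hysz⟩
            have h1 : M * tot Item.tr y ≤ M * (tot Item.tr (sh x) + M) := Nat.mul_le_mul le_rfl hytr2
            have h2 : M * tot Item.tr (sh x) + M * tot Item.act x ≤ M * (n + 1) := by
              rw [← mul_add]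
              exact Nat.mul_le_mul le_rfl (by omega)
            have h3 : M * (n + 1) = M * n + M := by ring
            have h4 : M * (tot Item.tr (sh x) + M) = M * tot Item.tr (sh x) + M * M := by ring
            have h5 : M * (M + 2) = M * M + 2 * M := by ring
            omega
          · have h1 := tot_big_sh_lt M (Nat.pos_of_ne_zero hx0)
            exact ih _ y hy hyo rfl (by omega) hytr hysz
        have hsho : ∀ k m, sh x k = .off m → m ≤ M := by
          intro l m' hl
          apply ho l m'
          unfold sh at hl
          cases hxl : x l with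
          | on a b => rw [hxl] at hl; simp [Item.shift] at hl
          | off a =>
            rw [hxl] at hl
            simpa [Item.shift] using hl
        by_cases heq : tot Item.tr x = n + 1
        · apply horace heq.symm.le
          show Inj n (sh x)
          exact hfin _ hx.sh hsho (by omega) (by omega) le_rfl (by omega) (by omega)
        · have hg : n + 1 - tot Item.tr x < m := by omega
          set g := n + 1 - tot Item.tr x with hgdef
          apply diff_horace hk (g := g) hg.le
          · show n + 1 ≤ tot Item.tr x + g
            omega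
          · show Inj n (Function.update (sh x) k (.on m g))
            have h4 := tr_dif hk hg
            have h5 := sz_dif hk hg
            have h10 := act_dif hk (g := g)
            apply hfin
            · exact hx.sh.update (by simp only [Item.ok]; omega)
            · intro l m' hl
              by_cases hlk : l = k
              · subst hlk
                rw [Function.update_self] at hl
                exact absurd hl (by simp)
              · rw [Function.update_of_ne hlk] at hl
                exact hsho l m' hl
            · omega
            · omega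
            · rw [hbk (sh x) g (by simp [sh, hk, Item.shift, big])]
            · omega
            · omega

end Pool.Agent.Helper28.HP
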