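import Pool.Agent.Helper28.HP.P0

/-!
# General fat points: finitely many points of arbitrary multiplicity, the others of multiplicity `≤ M`
-/

set_option autoImplicit false

namespace Pool.Agent.Helper28.HP

open Pool.Agent.Helper1.FH

variable {ι : Type*} [Fintype ι] [DecidableEq ι]

/-- the points of `A` on the line -/
def xs (m : ι → ℕ) (A : Finset ι) : ι → Item := fun k => if k ∈ A then .on (m k) 0 else .off (m k)

lemma inj_of_xs {n : ℕ} (m : ι → ℕ) (A : Finset ι) (h : Inj n (xs m A)) :
    Inj n (fun k => .off (m k)) := by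
  induction A using Finset.induction_on with
  | empty =>
    have h1 : xs m ∅ = fun k => .off (m k) := by
      funext k
      simp [xs]
    rwa [h1] at h
  | insert a A ha ih =>
    apply ih
    have h1 : xs m A a = .off (m a) := by simp [xs, ha]
    apply insert_on h1
    have h2 : Function.update (xs m A) a (.on (m a) 0) = xs m (insert a A) := by
      funext k
      by_cases hk : k = a
      · subst hk
        simp [xs]
      · simp [xs, hk]
    rw [h2]
    exact h

lemma xs_tr (m : ι → ℕ) (A : Finset ι) : tot Item.tr (xs m A) = ∑ k ∈ A, m k := by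
  unfold tot
  rw [← Finset.sum_subset (Finset.subset_univ A)]
  · apply Finset.sum_congr rfl
    intro k hk
    simp only [xs, if_pos hk, Item.tr]
    split_ifs <;> omega
  · intro k _ hk
    simp [xs, hk, Item.tr]

lemma xs_sz (m : ι → ℕ) (A : Finset ι) : tot Item.sz (xs m A) = ∑ k, T (m k) := by
  unfold tot
  apply Finset.sum_congr rfl
  intro k _
  by_cases hk : k ∈ A
  · simp [xs, hk, Item.sz]
  · simp [xs, hk, Item.sz]

lemma xs_big (M : ℕ) (m : ι → ℕ) (A : Finset ι) : tot (big M) (xs m A) ≤ ∑ k ∈ A, m k := by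
  rw [← xs_tr]
  apply tot_le
  intro k
  by_cases hk : k ∈ A
  · simp only [xs, if_pos hk, big, Item.tr]
    split_ifs <;> omega
  · simp [xs, hk, big]

lemma xs_ok {n : ℕ} (m : ι → ℕ) (A : Finset ι) (h : ∀ k, m k ≤ n) : Ok n (xs m A) := by
  intro k
  by_cases hk : k ∈ A
  · simp only [xs, if_pos hk, Item.ok]
    exact ⟨h k, Nat.zero_le _⟩
  · simp only [xs, if_neg hk, Item.ok]
    exact h k

lemma xs_off (m : ι → ℕ) (A : Finset ι) {M : ℕ} (hA : ∀ k, k ∉ A → m k ≤ M) :
    ∀ k a, xs m A k = .off a → a ≤ M := by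
  intro k a h
  by_cases hk : k ∈ A
  · simp [xs, hk] at h
  · simp only [xs, if_neg hk, Item.off.injEq] at h
    rw [← h]
    exact hA k hk

/-- **General fat points with special points**: injectivity. -/
theorem inj_special {M n : ℕ} (m : ι → ℕ) (A : Finset ι) (hA : ∀ k, k ∉ A → m k ≤ M)
    (hs : ∑ k ∈ A, m k + 8 * M ^ 2 + 1 ≤ n) (hsz : T n ≤ ∑ k, T (m k)) :
    Inj n (fun k => .off (m k)) := by
  apply inj_of_xs m A
  have hle : ∀ k, m k ≤ n := by
    intro k
    by_cases hk : k ∈ A
    · have := Finset.single_le_sum (f := m) (fun _ _ => Nat.zero_le _) hk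
      omega
    · have h1 := hA k hk
      have h2 := Nat.le_self_pow two_ne_zero M
      omega
  rcases Nat.lt_or_ge M 2 with hM | hM
  · apply finishing n _ _ (xs_ok m A hle) ?_ rfl
    · rw [xs_tr]
      omega
    · rw [xs_sz]
      exact hsz
    · apply Finset.sum_eq_zero
      intro k _
      by_cases hk : k ∈ A
      · simp [xs, hk, Item.fat]
      · have := hA k hk
        simp only [xs, if_neg hk, Item.fat]
        split_ifs <;> omega
  · apply phase0 hM n _ _ (xs_ok m A hle) (xs_off m A hA) rfl
    · have := xs_big M m A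
      omega
    · rw [xs_tr]
      omega
    · rw [xs_sz]
      exact hsz

end Pool.Agent.Helper28.HP
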